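import Pool.Agent.KS6_80.CC.Cls
import Pool.Agent.KS6_80.CC.Crit

/-!
# The monodromy conjecture at the origin for cones over real hypersurfaces with a chamber

Let `f` be a weighted homogeneous polynomial of the degree `d` in any number of variables, with weights
`w_i > 0`. The exceptional divisor of the weighted blow-up of the origin gives the candidate pole
`-(∑ w_i) / d` of the local topological zeta function of `f`. We prove that every polynomial `b` with a
functional equation `b(s) f ^ s = P(s) f ^ (s + 1)` has a root in `-(∑ w_i) / d + ℤ`, if `f` is in
some coordinates, up to a constant, a real polynomial `g` which has a *chamber* with a mild boundary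
(`HasChamber`): an open cone `U` with `g > 0` on `U` and `g = 0` on the boundary, such that, for some
weighted homogeneous polynomial `h` of the degree `d k`, nonnegative on `U`, the function `g ^ s h` is
integrable near the boundary points `x ≠ 0` for all `s > -(∑ w_i) / d - k`. For instance:

* `h = 1`: all the boundary points `x ≠ 0` have a multiplicity `≤ d / (∑ w_i)` (`chamber_of_mult`), or
* `g = q p ^ m`, `m > 0`, where `p` is positive on the closure of a chamber `U` of `q` except at `0`; here
  the boundary of the chamber is arbitrary (`chamber_of_factor`). If `p` is definite (positive at all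
  real points `x ≠ 0`), then this is the result `MP_aa7fc1_ag.RealConesLocal` of the library.

There are no conditions on the singularities of `{f = 0}` outside the boundary of the one real cone
`U`. The other poles come from the germs of `f` at the points `a ≠ 0` of `ℂ ^ (n + 1)`. So the conjecture
holds for `f` at the origin if it holds for these germs, in the sense that is needed here (`ChCone`):
for instance for all ternary forms with a chamber, as the germs at the points `a ≠ 0` are plane curves.

The class `TC k` contains the germs in `WeakD` (products of determinantal ideals, all ideals of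
`ℂ[x, y]`, products of linear ideals, ideals with Rees divisors, polynomials which are nondegenerate with
respect to their Newton polyhedron) and in `WeakHyp`, and is closed under the operations of `TQ` (sums
and products in disjoint sets of variables, `∑ y_j f_j(x)`, `∑ y_j f_j(x) + g(z)`, products of powers
of forms, powers, dropping variables), the weighted cones `WCone` over ideals, and the cones `ChCone`,
which may be nested.

The proof of the root (`root_weight`): the integral of `g ^ s h` over a neighbourhood of the origin in
`U` converges for `s > -(∑ w_i) / d - k`, by a decomposition into shells, and tends to infinity at this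
number (`conv_div`). The functional equation gives the analytic continuation, with poles only at the
numbers `z - j`, `z` a root of `b` and `j ≥ 0` (`rootW` of the library). Near the points of multiplicity
`m` the integrability for `s > -1/m` is proved with the sublevel estimate of van der Corput on lines.
The other poles: `sf_slice`, `sf_orbit` of the library.
-/

set_option autoImplicit false

namespace Pool.Agent.Results.MP_aa7fc1_ag.ChamberCones

open MvPolynomial Pool.Agent.W574.SM Pool.Agent.W574.RO Pool.Agent.H628R4.TP Pool.Agent.TH192.DT
  Pool.Agent.Y229 Pool.Agent.Y230.TL Pool.Agent.T6.H26 Pool.Agent.KS6_80.CC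

/-- **The monodromy conjecture at the origin: cones over real hypersurfaces with a chamber.**

(1) Let `TC k c A Z` be the classes of germs at the origin of ideals (`c = false`) and of hypersurfaces
(`c = true`), given by generators `A`, with their local topological zeta functions `Z`, which are
obtained from the germs in `WeakD` and the hypersurfaces in `WeakHyp` by the operations of `TQ`, by the
weighted cones `WCone` over ideals and by the cones `ChCone` over real hypersurfaces with a chamber,
nested at most `k` times. Let the hypersurface `F` be in the class, let `s₀` be a pole of `Z`, and let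
`b` satisfy a functional equation `b(s) F ^ s = P(s) F ^ (s + 1)`, where `P(s)` is a differential
operator with formal power series coefficients, for example the local Bernstein-Sato polynomial. Then
`b(s₀ + l) = 0` for some integer `l`. By the theorem of Malgrange and Kashiwara, `exp(2 π i s₀)` is an
eigenvalue of the monodromy of `F` at points of `F = 0` near the origin.

(2) A real polynomial `g`, weighted homogeneous of the degree `d > 0` for weights `w_i > 0`, has a
chamber in the sense of `HasChamber`, if there is an open cone `U ≠ ∅, {0}`, with `g > 0` on `U` and
`g = 0` on its boundary, such that `g` has a multiplicity `j` with `(∑ w_i) j ≤ d` at all the points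
`x ≠ 0` of the boundary.

(3) The same holds for `g = q p ^ m`, `m > 0`, if `q` and `p` are weighted homogeneous, `p` of a positive
degree, and there is an open cone `U` with `q > 0` on `U`, `q = 0` on its boundary except at the origin,
and `p > 0` on its closure except at the origin. -/
theorem result :
    (∀ (k : ℕ) (c : Bool) (σ : Type) (F : MvPolynomial σ ℂ) (Z : RatFunc ℂ),
      TC k c ⟨σ, Fin 1, fun _ => F⟩ Z → ∀ b : Polynomial ℂ, IsLocalBFunction F b →
      ∀ s₀ : ℂ, Z.denom.eval s₀ = 0 → ∃ l : ℤ, b.eval (s₀ + (l : ℂ)) = 0) ∧
    (∀ (n : ℕ) (w : Fin n → ℕ) (d : ℕ) (g : MvPolynomial (Fin n) ℝ) (U : Set (Fin n → ℝ)),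
      (∀ i, 0 < w i) → 0 < d → g.IsWeightedHomogeneous w d → IsOpen U →
      (∀ x ∈ U, ∀ c : ℝ, 0 < c → (fun i => c ^ w i * x i) ∈ U) → (∃ x ∈ U, x ≠ 0) →
      (∀ x ∈ U, 0 < eval x g) → (∀ x ∈ closure U, x ∉ U → eval x g = 0) →
      (∀ x ∈ closure U, x ∉ U → x ≠ 0 → ∃ j, (∑ i, w i) * j ≤ d ∧
        homogeneousComponent j (aeval (fun i => X i + C (x i)) g : MvPolynomial (Fin n) ℝ) ≠ 0) →
      HasChamber w d (map (algebraMap ℝ ℂ) g)) ∧
    ∀ (n : ℕ) (w : Fin n → ℕ) (dq dp m : ℕ) (q p : MvPolynomial (Fin n) ℝ)
      (U : Set (Fin n → ℝ)), (∀ i, 0 < w i) → 0 < dp → 0 < m → q.IsWeightedHomogeneous w dq →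
      p.IsWeightedHomogeneous w dp → IsOpen U →
      (∀ x ∈ U, ∀ c : ℝ, 0 < c → (fun i => c ^ w i * x i) ∈ U) → (∃ x ∈ U, x ≠ 0) → 0 ∉ U →
      (∀ x ∈ U, x ≠ 0 → 0 < eval x q) → (∀ x ∈ closure U, x ∉ U → x ≠ 0 → eval x q = 0) →
      (∀ x ∈ closure U, x ≠ 0 → 0 < eval x p) →
      HasChamber w (dq + m * dp) (map (algebraMap ℝ ℂ) (q * p ^ m)) := by
  exact ⟨tc_main, hasChamber_of_mult, hasChamber_of_factor⟩

end Pool.Agent.Results.MP_aa7fc1_ag.ChamberCones
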