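import Pool.Agent.KS6_81.HN.Thm

/-!
# The monodromy conjecture at the origin for cones with a heavy point, in any number of variables

Let `f` be a weighted homogeneous polynomial of degree `d` in `n + 1` variables with weights `w_i > 0`,
`W = ∑ w_i`. The exceptional divisor of the (weighted) blow-up of the origin gives the candidate pole
`-W/d` of the local topological zeta function of `f`. All the other poles come from the germs of `f`
at the points `a ≠ 0`. We prove that `-W/d` is a root of every polynomial `b` with a functional equation
`b(s) f ^ s = P(s) f ^ (s + 1)`, if `f` has a heavy point with a mild tangent cone (`HeavyVar`). For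
weights `1` this says that the hypersurface `f = 0` in the projective space `P ^ n` has a point `P` of
multiplicity `d - k > n d / (n + 1)`, where the powers of the equation of the tangent cone satisfy an
integrability condition, which holds for instance if the tangent cone is smooth away from its vertex.
At such a point the log canonical threshold is at most `n / (d - k) < W / d`, and no condition is
imposed on the hypersurface outside of `P`: arbitrary singularities and multiple components are
allowed, and there is no condition on the real structure of `f`.

Such cones are a new step in the construction of the class of germs of the library. The class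
`TG HasRoot k` contains the germs in `WeakD` (products of determinantal ideals, all ideals of
`ℂ[x, y]`, products of linear ideals, ideals with Rees divisors, polynomials which are nondegenerate with
respect to their Newton polyhedron) and in `WeakHyp`, and is closed under the operations of `TQ` (sums
and products in disjoint sets of variables, `∑ y_j f_j(x)`, `∑ y_j f_j(x) + g(z)`, products of powers
of forms, powers, dropping variables), the weighted cones `WCone` over ideals, and the weighted cones
over all hypersurfaces in any number of variables which have the root of the exceptional divisor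
modulo `ℤ` (`HasRoot`), which may be nested. By (2) `HasRoot` holds for `HeavyVar`. So for all
hypersurfaces in the class the conjecture of Denef and Loeser holds at the origin.

The proof of the root (`KS6_81/HN`): the analytic continuation of the integral of `|f| ^ (2s)` over
`ℂ ^ (n + 1)` against a suitable test function is, near `s = -W/d`, an outer integral over `ℂ ^ n` of
regularised inner integrals over the lines through `P`. By the inequality of the arithmetic and
geometric means the regularised inner integrals are bounded from below, and by the weighted homogeneity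
the outer integral tends to infinity for `s → -W/d`. If `-W/d` was not a root of `b`, then the
functional equation would give an analytic continuation to a neighbourhood of `-W/d`.
-/

set_option autoImplicit false

namespace Pool.Agent.Results.MP_aa7fc1_ag.HeavyCones

open MvPolynomial Pool.Agent.W574.SM Pool.Agent.W574.RO Pool.Agent.H628R4.TP Pool.Agent.TH192.DT
  Pool.Agent.Y229 Pool.Agent.T6.H26 Pool.Agent.KS6_81.CN Pool.Agent.KS6_81.HN

/-- **The monodromy conjecture at the origin: cones with a heavy point in any number of variables.**

(1) Let `TG HasRoot k c A Z` be the classes of germs at the origin of ideals (`c = false`) and of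
hypersurfaces (`c = true`), given by generators `A`, with their local topological zeta functions `Z`,
which are obtained from the germs in `WeakD` and the hypersurfaces in `WeakHyp` by the operations of
`TQ`, by the weighted cones `WCone` over ideals and by the weighted cones over hypersurfaces `f = 0`
with `HasRoot`, nested at most `k` times. Let the hypersurface `F` be in the class, let `s₀` be a pole
of `Z`, and let `b` satisfy a functional equation `b(s) F ^ s = P(s) F ^ (s + 1)`, where `P(s)` is a
differential operator with formal power series coefficients, for example the local Bernstein-Sato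
polynomial. Then `b(s₀ + l) = 0` for some integer `l`. By the theorem of Malgrange and Kashiwara,
`exp(2 π i s₀)` is an eigenvalue of the monodromy of `F` at points of `F = 0` near the origin.

(2) Let `f` be weighted homogeneous of degree `d` for the weights `w_i > 0` with a heavy point and a
mild tangent cone (`HeavyVar`). Then `b(-(∑ w_i)/d) = 0` for all `b` with such an equation. In
particular `f` satisfies `HasRoot`.

(3) Let `f = ∑_{j ≤ k} x_0 ^ (k - j) A_j(x_1, …, x_n)` be weighted homogeneous of degree `e` for the
weights `u_i > 0`, `U = ∑ u_i`, `k U < e`, `A_0 = α ∏ L_i ^ m_i`, let `A_j` be divisible by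
`∏ L_i ^ o_{j,i}`, and suppose that for all `t ≠ 0` the polynomials `L_i` have multiplicities `≤ μ_i` at
`t`, where `∑ μ_i max(0, j U m_i + (e - k U)(m_i - o_{j,i})) < e j` for all `j` with `A_j ≠ 0`. If for
some `t` with `A_0(t) ≠ 0` the polynomial `f(x, t)` in `x` has two different zeros, then
`HeavyVar n u e f`. For example, if `k ≥ 2` and `A_0` has no singular zeros `t ≠ 0`, then one can take
`L_1 = A_0`, `o = 0`, `μ_1 ≤ 1`. -/
theorem result :
    (∀ (k : ℕ) (c : Bool) (σ : Type) (F : MvPolynomial σ ℂ) (Z : RatFunc ℂ),
      TG HasRoot k c ⟨σ, Fin 1, fun _ => F⟩ Z → ∀ b, IsLocalBFunction F b →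
      ∀ s₀ : ℂ, Z.denom.eval s₀ = 0 → ∃ l : ℤ, b.eval (s₀ + (l : ℂ)) = 0) ∧
    (∀ (n : ℕ) (w : Fin (n + 1) → ℕ) (d : ℕ) (f : MvPolynomial (Fin (n + 1)) ℂ),
      (∀ i, 0 < w i) → f.IsWeightedHomogeneous w d → HeavyVar n w d f →
      (∀ b, IsLocalBFunction f b → b.eval (-((∑ i, w i : ℕ) : ℂ) / d) = 0) ∧ HasRoot n w d f) ∧
    ∀ (n : ℕ) (u : Fin (n + 1) → ℕ) (e k r : ℕ) (A : ℕ → MvPolynomial (Fin n) ℂ)
      (L : Fin r → MvPolynomial (Fin n) ℂ) (m : Fin r → ℕ) (o : ℕ → Fin r → ℕ) (α : ℂ),
      (∀ i, 0 < u i) → k * ∑ i, u i < e →
      (∀ j ≤ k, (A j).IsWeightedHomogeneous (fun i => u i.succ) (e - (k - j) * u 0)) →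
      A 0 = C α * ∏ i, L i ^ m i →
      (∀ j, 1 ≤ j → j ≤ k → ∏ i, L i ^ o j i ∣ A j) →
      (∀ t : Fin n → ℂ, t ≠ 0 → ∃ μ : Fin r → ℕ,
        (∀ i, homogeneousComponent (μ i) (aeval (fun l => X l + C (t l)) (L i)) ≠ 0) ∧
        ∀ j, 1 ≤ j → j ≤ k → A j ≠ 0 → ∑ i, (μ i : ℤ) * max 0 ((j * ∑ l, u l : ℕ) * m i +
          ((e : ℤ) - (k * ∑ l, u l : ℕ)) * ((m i : ℤ) - o j i)) < (e * j : ℕ)) →
      (∃ (t : Fin n → ℂ) (x y : ℂ), eval t (A 0) ≠ 0 ∧ x ≠ y ∧
        ∑ j ∈ Finset.range (k + 1), x ^ (k - j) * eval t (A j) = 0 ∧
        ∑ j ∈ Finset.range (k + 1), y ^ (k - j) * eval t (A j) = 0) →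
      HeavyVar n u e (∑ j ∈ Finset.range (k + 1), X 0 ^ (k - j) * rename Fin.succ (A j)) :=
  ⟨fun k c σ F Z hF b hb s₀ hs => tg_main rootCond_hasRoot k c σ F Z hF b hb s₀ hs,
    fun _ _ _ _ hw hf h => ⟨fun _ hb => h.root hw hf hb, h.hasRoot hw hf⟩,
    fun _ _ _ _ _ _ _ _ _ _ hu hk hom hA0 hdvd hmult hdist =>
      heavyVar_of_mult hu hk hom hA0 hdvd hmult hdist⟩

end Pool.Agent.Results.MP_aa7fc1_ag.HeavyCones
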