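import Pool.Agent.KS6_81.CN.Sq

/-!
# The monodromy conjecture at the origin for cones over plane curves with semi-quasi-homogeneous
# singularities

Let `f` be a form of degree `d` in three variables. The exceptional divisor of the blow-up of the origin
gives the candidate pole `-3/d` of the local topological zeta function of `f`. All the other poles
come from the germs of `f` at the points `a ≠ 0`, which are plane curves. We prove that `-3/d` is a root
of every polynomial `b` with a functional equation `b(s) f ^ s = P(s) f ^ (s + 1)`, if the curve `f = 0`
(with arbitrary multiplicities of the components) has semi-quasi-homogeneous singularities whose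
conditions on adjoint curves of the degree `t - 6` are independent (`SqhCurve`; `t` is the degree of the
reduced curve). For instance the curve may have quasi-homogeneous singularities and at most `t - 5`
exceptional unimodal singularities `x³ + y⁷ + a x y⁵`, `a ≠ 0`, which are not quasi-homogeneous. There is
no condition on the real structure of `f`.

Such cones are a new step in the construction of the class of germs of the library. The class
`TG HasRoot k` contains the germs in `WeakD` (products of determinantal ideals, all ideals of
`ℂ[x, y]`, products of linear ideals, ideals with Rees divisors, polynomials which are nondegenerate with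
respect to their Newton polyhedron) and in `WeakHyp`, and is closed under the operations of `TQ` (sums
and products in disjoint sets of variables, `∑ y_j f_j(x)`, `∑ y_j f_j(x) + g(z)`, products of powers
of forms, powers, dropping variables), the weighted cones `WCone` over ideals, and the weighted cones
over all hypersurfaces in any number of variables which have the root of the exceptional divisor
modulo `ℤ` (`HasRoot`), which may be nested. `HasRoot` holds for the plane curves with `SqhCurve`
(part (2) of the theorem), and for the real hypersurfaces with a chamber of
`MP_aa7fc1_ag.ChamberCones` (`root_hasChamber`). So for all hypersurfaces in the class the conjecture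
of Denef and Loeser holds at the origin.

The proof of the root: if `-3/d` is not a root, then `f ^ (-3/d) Ω` is exact on the complement of the
curve, and the pole order of the primitive can be reduced to zero by the local analysis of the
logarithmic forms at the semi-quasi-homogeneous points (`KS6_81/SQ`). The remaining linear vector
field does not exist by `SqhCurve`. The other poles: `cone_gen` of `KS6_80/CC`.
-/

set_option autoImplicit false

namespace Pool.Agent.Results.MP_aa7fc1_ag.SemiQuasiHomogeneousCones

open MvPolynomial Pool.Agent.W574.SM Pool.Agent.W574.RO Pool.Agent.H628R4.TP Pool.Agent.TH192.DT
  Pool.Agent.Y229 Pool.Agent.T6.H26 Pool.Agent.KS6_81.CN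

/-- **The monodromy conjecture at the origin: cones over plane curves with semi-quasi-homogeneous
singularities.**

(1) Let `TG HasRoot k c A Z` be the classes of germs at the origin of ideals (`c = false`) and of
hypersurfaces (`c = true`), given by generators `A`, with their local topological zeta functions `Z`,
which are obtained from the germs in `WeakD` and the hypersurfaces in `WeakHyp` by the operations of
`TQ`, by the weighted cones `WCone` over ideals and by the weighted cones over hypersurfaces `f = 0`
with `HasRoot`, nested at most `k` times. Let the hypersurface `F` be in the class, let `s₀` be a pole
of `Z`, and let `b` satisfy a functional equation `b(s) F ^ s = P(s) F ^ (s + 1)`, where `P(s)` is a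
differential operator with formal power series coefficients, for example the local Bernstein-Sato
polynomial. Then `b(s₀ + l) = 0` for some integer `l`. By the theorem of Malgrange and Kashiwara,
`exp(2 π i s₀)` is an eigenvalue of the monodromy of `F` at points of `F = 0` near the origin.

(2) Let `f` be a form of degree `d` in three variables whose curve has semi-quasi-homogeneous
singularities with independent conditions (`SqhCurve`). Then `b(-3/d) = 0` for all `b` with such an
equation. In particular `f` satisfies `HasRoot` with all weights `1`. -/
theorem result :
    (∀ (k : ℕ) (c : Bool) (σ : Type) (F : MvPolynomial σ ℂ) (Z : RatFunc ℂ),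
      TG HasRoot k c ⟨σ, Fin 1, fun _ => F⟩ Z → ∀ b, IsLocalBFunction F b →
      ∀ s₀ : ℂ, Z.denom.eval s₀ = 0 → ∃ l : ℤ, b.eval (s₀ + (l : ℂ)) = 0) ∧
    ∀ (d : ℕ) (f : MvPolynomial (Fin 3) ℂ), f.IsHomogeneous d → SqhCurve d f →
      (∀ b, IsLocalBFunction f b → b.eval (-3 / d : ℂ) = 0) ∧
      HasRoot 2 (fun _ => 1) d f :=
  ⟨fun k c σ F Z hF b hb s₀ hs => tg_main rootCond_hasRoot k c σ F Z hF b hb s₀ hs,
    fun _ _ hf h => ⟨fun _ hb => h.root hf hb, h.hasRoot hf⟩⟩

end Pool.Agent.Results.MP_aa7fc1_ag.SemiQuasiHomogeneousCones
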